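import Pool.Agent.T6.H56.GL.Main

/-!
# The non-differentiable set of an element of `Homeo¹(S)` has measure zero

Problem MP_bd3523_gt, Q2 (answer: no).

The definitions are those of the starting file `Pool.Agent.R789.C1Curve`, which the answer to Q1 also
uses; a smooth surface is a smooth manifold modelled on `ℂ = ℝ²`, without boundary.
* `IsC1Curve Γ`: `Γ` is the image of an injective `C¹` map `S¹ = ℝ/ℤ → S` with nowhere vanishing
  derivative, written as a `1`-periodic map on `ℝ` which is injective on `[0, 1)`;
* `Homeo1 f`: `f` and `f⁻¹` map every `C¹` curve onto a `C¹` curve;
* `nonDiff f`: the set of the points at which `f` is not differentiable.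

Proof. On a segment `f` is, in charts, a reparametrisation of a `C¹` curve by a monotone function, so
it is differentiable almost everywhere on the segment. Hence the partial derivatives exist almost
everywhere, and a homeomorphism (or an open map) of the plane whose partial derivatives exist almost
everywhere is differentiable almost everywhere by a theorem of Gehring and Lehto, which is proved in
`Pool.Agent.T6.H56.GL.Planar` (with Stepanov's theorem).
-/

set_option autoImplicit false

universe u

namespace Pool.Agent.Results.MP_bd3523_gt.NonDiffNull

open Set MeasureTheory R789.C1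
open scoped Manifold ContDiff

/-- **Answer to Q2.** For every smooth surface `S` and every `f ∈ Homeo¹(S)` the non-differentiable
set of `f` has measure zero: its image under every smooth chart `e` of `S` is a null set for the
two-dimensional Lebesgue measure. -/
theorem result (S : Type u) [TopologicalSpace S] [ChartedSpace ℂ S] [IsManifold 𝓘(ℝ, ℂ) ∞ S]
    (f : S ≃ₜ S) (hf : Homeo1 f) (e : OpenPartialHomeomorph S ℂ)
    (he : e ∈ IsManifold.maximalAtlas 𝓘(ℝ, ℂ) ∞ S) :
    volume (e '' (nonDiff f ∩ e.source)) = 0 :=
  Pool.Agent.T6.H56.GL.null_nonDiff f hf.1 e he

end Pool.Agent.Results.MP_bd3523_gt.NonDiffNull
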